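import Pool.Agent.H.MP_9e990c_al.h79.Cyc

/-! The algebra `⊕ K z1^a z3^b z2^c` over an arbitrary commutative base ring. -/

set_option linter.unusedSimpArgs false

namespace Pool.Agent.H.MP_9e990c_al

/-- Data for the algebra generated over `K` by `z1, z3, z2` with
`z_j k = s_j(k) z_j`, `z1 z3 = z3 z1`, `z_i z2 = u_i z2 z_i`, `z_j^3 = a_j`,
together with an involution `sg` which can be extended by `z_j ↦ z_j⁻¹`. -/
structure AlgData (K : Type*) [CommRing K] where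
  s1 : K →+* K
  s2 : K →+* K
  s3 : K →+* K
  sg : K →+* K
  u1 : K
  u3 : K
  v1 : K
  v3 : K
  a1 : K
  a2 : K
  a3 : K
  s12 : ∀ x, s1 (s2 x) = s2 (s1 x)
  s13 : ∀ x, s1 (s3 x) = s3 (s1 x)
  s32 : ∀ x, s3 (s2 x) = s2 (s3 x)
  c1 : ∀ x, s1 (s1 (s1 x)) = x
  c2 : ∀ x, s2 (s2 (s2 x)) = x
  c3 : ∀ x, s3 (s3 (s3 x)) = x
  sgsg : ∀ x, sg (sg x) = x
  sg1 : ∀ x, sg (s1 x) = s1 (s1 (sg x))
  sg2 : ∀ x, sg (s2 x) = s2 (s2 (sg x))
  sg3 : ∀ x, sg (s3 x) = s3 (s3 (sg x))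
  v1u1 : v1 * u1 = 1
  v3u3 : v3 * u3 = 1
  s1a1 : s1 a1 = a1
  s3a1 : s3 a1 = a1
  s1a3 : s1 a3 = a3
  s3a3 : s3 a3 = a3
  s2a2 : s2 a2 = a2
  n1 : u1 * s1 u1 * s1 (s1 u1) * s2 a1 = a1
  n3 : u3 * s3 u3 * s3 (s3 u3) * s2 a3 = a3
  m1 : s1 a2 = u1 * s2 u1 * s2 (s2 u1) * a2
  m3 : s3 a2 = u3 * s2 u3 * s2 (s2 u3) * a2
  s3u1 : s3 u1 = u1
  s1u3 : s1 u3 = u3
  sgu1 : sg u1 = s1 (s1 (s2 (s2 u1)))
  sgu3 : sg u3 = s3 (s3 (s2 (s2 u3)))
  a1sg : a1 * sg a1 = 1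
  a2sg : a2 * sg a2 = 1
  a3sg : a3 * sg a3 = 1

namespace AlgData

open Cyc

variable {K : Type*} [CommRing K] (D : AlgData K)

lemma s3v1 : D.s3 D.v1 = D.v1 := by
  have h : D.s3 D.v1 * D.u1 = 1 := by
    have := congrArg D.s3 D.v1u1
    rwa [map_mul, map_one, D.s3u1] at this
  calc D.s3 D.v1 = D.s3 D.v1 * (D.v1 * D.u1) := by rw [D.v1u1, mul_one]
    _ = D.v1 * (D.s3 D.v1 * D.u1) := by ring
    _ = D.v1 := by rw [h, mul_one]

lemma s1v3 : D.s1 D.v3 = D.v3 := by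
  have h : D.s1 D.v3 * D.u3 = 1 := by
    have := congrArg D.s1 D.v3u3
    rwa [map_mul, map_one, D.s1u3] at this
  calc D.s1 D.v3 = D.s1 D.v3 * (D.v3 * D.u3) := by rw [D.v3u3, mul_one]
    _ = D.v3 * (D.s1 D.v3 * D.u3) := by ring
    _ = D.v3 := by rw [h, mul_one]

lemma n1' : D.v1 * (D.s1 D.v1 * (D.s1 (D.s1 D.v1) * D.a1)) = D.s2 D.a1 := by
  have h0 := D.v1u1
  have h1 : D.s1 D.v1 * D.s1 D.u1 = 1 := by rw [← map_mul, h0, map_one]
  have h2 : D.s1 (D.s1 D.v1) * D.s1 (D.s1 D.u1) = 1 := by rw [← map_mul, h1, map_one]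
  calc _ = D.v1 * (D.s1 D.v1 * (D.s1 (D.s1 D.v1) *
        (D.u1 * D.s1 D.u1 * D.s1 (D.s1 D.u1) * D.s2 D.a1))) := by rw [D.n1]
    _ = (D.v1 * D.u1) * (D.s1 D.v1 * D.s1 D.u1) * (D.s1 (D.s1 D.v1) * D.s1 (D.s1 D.u1)) *
        D.s2 D.a1 := by ring
    _ = _ := by rw [h0, h1, h2]; ring

lemma n3' : D.v3 * (D.s3 D.v3 * (D.s3 (D.s3 D.v3) * D.a3)) = D.s2 D.a3 := by
  have h0 := D.v3u3
  have h1 : D.s3 D.v3 * D.s3 D.u3 = 1 := by rw [← map_mul, h0, map_one]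
  have h2 : D.s3 (D.s3 D.v3) * D.s3 (D.s3 D.u3) = 1 := by rw [← map_mul, h1, map_one]
  calc _ = D.v3 * (D.s3 D.v3 * (D.s3 (D.s3 D.v3) *
        (D.u3 * D.s3 D.u3 * D.s3 (D.s3 D.u3) * D.s2 D.a3))) := by rw [D.n3]
    _ = (D.v3 * D.u3) * (D.s3 D.v3 * D.s3 D.u3) * (D.s3 (D.s3 D.v3) * D.s3 (D.s3 D.u3)) *
        D.s2 D.a3 := by ring
    _ = _ := by rw [h0, h1, h2]; ring

lemma m1' : D.s2 (D.s2 D.v1) * (D.s2 D.v1 * (D.v1 * D.s1 D.a2)) = D.a2 := by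
  have h0 := D.v1u1
  have h1 : D.s2 D.v1 * D.s2 D.u1 = 1 := by rw [← map_mul, h0, map_one]
  have h2 : D.s2 (D.s2 D.v1) * D.s2 (D.s2 D.u1) = 1 := by rw [← map_mul, h1, map_one]
  rw [D.m1]
  calc _ = (D.v1 * D.u1) * (D.s2 D.v1 * D.s2 D.u1) * (D.s2 (D.s2 D.v1) * D.s2 (D.s2 D.u1)) *
        D.a2 := by ring
    _ = _ := by rw [h0, h1, h2]; ring

lemma m3' : D.s2 (D.s2 D.v3) * (D.s2 D.v3 * (D.v3 * D.s3 D.a2)) = D.a2 := by
  have h0 := D.v3u3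
  have h1 : D.s2 D.v3 * D.s2 D.u3 = 1 := by rw [← map_mul, h0, map_one]
  have h2 : D.s2 (D.s2 D.v3) * D.s2 (D.s2 D.u3) = 1 := by rw [← map_mul, h1, map_one]
  rw [D.m3]
  calc _ = (D.v3 * D.u3) * (D.s2 D.v3 * D.s2 D.u3) * (D.s2 (D.s2 D.v3) * D.s2 (D.s2 D.u3)) *
        D.a2 := by ring
    _ = _ := by rw [h0, h1, h2]; ring

/-- first step: `K[z1]` -/
def d1 : CycData K where
  τ := D.s1
  b := D.a1
  τb := D.s1a1
  hb r := by rw [D.c1, mul_comm]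

/-- `K[z1]` -/
abbrev A1 := Cyc D.d1

/-- conjugation by `z3` on `K[z1]` -/
@[irreducible] def t3 : D.A1 →+* D.A1 :=
  Cyc.lift ((of D.d1).comp D.s3) (z D.d1)
    (fun r => by
      rw [RingHom.comp_apply, RingHom.comp_apply, z_mul_of]
      change of D.d1 (D.s1 (D.s3 r)) * _ = of D.d1 (D.s3 (D.s1 r)) * _
      rw [D.s13])
    (by
      rw [z_pow_three]
      change of D.d1 D.a1 = of D.d1 (D.s3 D.a1)
      rw [D.s3a1])

lemma t3_of (k : K) : D.t3 (of D.d1 k) = of D.d1 (D.s3 k) := by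
  rw [t3, lift_of, RingHom.comp_apply]

lemma t3_z : D.t3 (z D.d1) = z D.d1 := by
  rw [t3, lift_z]

lemma t3_t3_t3 (x : D.A1) : D.t3 (D.t3 (D.t3 x)) = x := by
  have h1 : ∀ r, (D.t3.comp (D.t3.comp D.t3)) (of D.d1 r) = of D.d1 r := fun r => by
    simp only [RingHom.comp_apply, t3_of, D.c3]
  have h2 : (D.t3.comp (D.t3.comp D.t3)) (z D.d1) = z D.d1 := by
    simp only [RingHom.comp_apply, t3_z]
  have key := Cyc.eq_id h1 h2 x
  rw [RingHom.comp_apply, RingHom.comp_apply] at key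
  exact key

/-- second step: `K[z1][z3]` -/
def d3 : CycData D.A1 where
  τ := D.t3
  b := of D.d1 D.a3
  τb := by rw [t3_of, D.s3a3]
  hb x := by
    rw [D.t3_t3_t3]
    ext
    · rw [of_mul_c0, mul_of_c0, mul_comm]
    · rw [of_mul_c1, mul_of_c1, mul_comm]
      change _ = x.c1 * D.s1 D.a3
      rw [D.s1a3]
    · rw [of_mul_c2, mul_of_c2, mul_comm]
      change _ = x.c2 * D.s1 (D.s1 D.a3)
      rw [D.s1a3, D.s1a3]

/-- `K[z1][z3]` -/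
abbrev A3 := Cyc D.d3

/-- the inclusion `K → K[z1][z3]` -/
def j3 : K →+* D.A3 := (of D.d3).comp (of D.d1)

/-- `z1` in `K[z1][z3]` -/
def y1 : D.A3 := of D.d3 (z D.d1)

/-- `z3` in `K[z1][z3]` -/
def y3 : D.A3 := z D.d3

lemma y1_j (k : K) : D.y1 * D.j3 k = D.j3 (D.s1 k) * D.y1 := by
  rw [y1, j3, RingHom.comp_apply, RingHom.comp_apply, ← map_mul, z_mul_of, map_mul]
  rfl

lemma y1_j' (k : K) (w : D.A3) : D.y1 * (D.j3 k * w) = D.j3 (D.s1 k) * (D.y1 * w) := by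
  rw [← mul_assoc, y1_j, mul_assoc]

lemma y3_j (k : K) : D.y3 * D.j3 k = D.j3 (D.s3 k) * D.y3 := by
  rw [y3, j3, RingHom.comp_apply, RingHom.comp_apply, z_mul_of]
  change of D.d3 (D.t3 (of D.d1 k)) * _ = _
  rw [t3_of]

lemma y3_j' (k : K) (w : D.A3) : D.y3 * (D.j3 k * w) = D.j3 (D.s3 k) * (D.y3 * w) := by
  rw [← mul_assoc, y3_j, mul_assoc]

lemma y3_y1 : D.y3 * D.y1 = D.y1 * D.y3 := by
  rw [y3, y1, z_mul_of]
  change of D.d3 (D.t3 (z D.d1)) * _ = _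
  rw [t3_z]

lemma y1_cube : D.y1 * (D.y1 * D.y1) = D.j3 D.a1 := by
  rw [y1, ← map_mul, ← map_mul, z_cube']
  rfl

lemma y3_cube : D.y3 * (D.y3 * D.y3) = D.j3 D.a3 := by
  rw [y3, z_cube']
  rfl

/-- auxiliary: the map `K[z1] → K[z1][z3]` given by `s2` on `K` and `z1 ↦ u1⁻¹ z1`. -/
@[irreducible] def t21 : D.A1 →+* D.A3 :=
  Cyc.lift (D.j3.comp D.s2) (D.j3 D.v1 * D.y1)
    (fun r => by
      rw [RingHom.comp_apply, RingHom.comp_apply, mul_assoc, y1_j]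
      change _ = D.j3 (D.s2 (D.s1 r)) * _
      rw [← mul_assoc, ← mul_assoc, ← map_mul, ← map_mul, D.s12, mul_comm D.v1])
    (by
      rw [pow_succ, pow_two, mul_assoc]
      change _ = D.j3 (D.s2 D.a1)
      simp only [mul_assoc, y1_j', y1_cube]
      simp only [← map_mul, D.n1'])

lemma t21_of (k : K) : D.t21 (of D.d1 k) = D.j3 (D.s2 k) := by
  rw [t21, lift_of, RingHom.comp_apply]

lemma t21_z : D.t21 (z D.d1) = D.j3 D.v1 * D.y1 := by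
  rw [t21, lift_z]

lemma t2_aux1 (r : D.A1) :
    (D.j3 D.v3 * D.y3) * D.t21 r = D.t21 (D.t3 r) * (D.j3 D.v3 * D.y3) := by
  have h1 : ∀ k, (D.j3 D.v3 * D.y3) * D.t21 (of D.d1 k) =
      (D.t21.comp D.t3) (of D.d1 k) * (D.j3 D.v3 * D.y3) := fun k => by
    rw [RingHom.comp_apply, t3_of, t21_of, t21_of, mul_assoc, y3_j, ← mul_assoc, ← mul_assoc,
      ← map_mul, ← map_mul, D.s32, mul_comm D.v3]
  have h2 : (D.j3 D.v3 * D.y3) * D.t21 (z D.d1) =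
      (D.t21.comp D.t3) (z D.d1) * (D.j3 D.v3 * D.y3) := by
    rw [RingHom.comp_apply, t3_z, t21_z]
    simp only [mul_assoc, y3_j', y1_j', D.s3v1, D.s1v3, y3_y1]
    rw [← mul_assoc, ← map_mul, ← mul_assoc (D.j3 D.v1), ← map_mul, mul_comm D.v3]
  have key := Cyc.comm_ext (f := D.t21) (g := D.t21.comp D.t3) h1 h2 r
  rwa [RingHom.comp_apply] at key

lemma t2_aux2 : (D.j3 D.v3 * D.y3) ^ 3 = D.t21 (of D.d1 D.a3) := by
  rw [pow_succ, pow_two, mul_assoc, t21_of]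
  simp only [mul_assoc, y3_j', y3_cube]
  simp only [← map_mul, D.n3']

/-- conjugation by `z2` on `K[z1][z3]` -/
@[irreducible] def t2 : D.A3 →+* D.A3 :=
  Cyc.lift (d := D.d3) D.t21 (D.j3 D.v3 * D.y3) D.t2_aux1 D.t2_aux2

lemma t2_of (r : D.A1) : D.t2 (of D.d3 r) = D.t21 r := by
  unfold t2
  exact lift_of _ _ _ _ r

lemma t2_j (k : K) : D.t2 (D.j3 k) = D.j3 (D.s2 k) := by
  have h : D.j3 k = of D.d3 (of D.d1 k) := rfl
  rw [h, t2_of, t21_of]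

lemma t2_y1 : D.t2 D.y1 = D.j3 D.v1 * D.y1 := by
  have h : D.y1 = of D.d3 (z D.d1) := rfl
  nth_rw 1 [h]
  rw [t2_of, t21_z]

lemma t2_y3 : D.t2 D.y3 = D.j3 D.v3 * D.y3 := by
  unfold t2
  exact lift_z _ _ _ _

lemma t2_t2_t2 (x : D.A3) : D.j3 D.a2 * x = D.t2 (D.t2 (D.t2 x)) * D.j3 D.a2 := by
  have e1 : ∀ k, D.j3 D.a2 * D.j3 k = D.t2 (D.t2 (D.t2 (D.j3 k))) * D.j3 D.a2 := fun k => by
    rw [t2_j, t2_j, t2_j, D.c2, ← map_mul, ← map_mul, mul_comm]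
  have e2 : D.j3 D.a2 * D.y1 = D.t2 (D.t2 (D.t2 D.y1)) * D.j3 D.a2 := by
    simp only [t2_y1, map_mul, t2_j, mul_assoc, y1_j]
    rw [← mul_assoc, ← mul_assoc, ← mul_assoc, ← map_mul, ← map_mul, ← map_mul]
    congr 2
    nth_rw 1 [← D.m1']
    ring
  have e3 : D.j3 D.a2 * D.y3 = D.t2 (D.t2 (D.t2 D.y3)) * D.j3 D.a2 := by
    simp only [t2_y3, map_mul, t2_j, mul_assoc, y3_j]
    rw [← mul_assoc, ← mul_assoc, ← mul_assoc, ← map_mul, ← map_mul, ← map_mul]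
    congr 2
    nth_rw 1 [← D.m3']
    ring
  have h1 : ∀ r, D.j3 D.a2 * ((RingHom.id D.A3).comp (of D.d3)) r =
      ((D.t2.comp (D.t2.comp D.t2)).comp (of D.d3)) r * D.j3 D.a2 := fun r =>
    Cyc.comm_ext (f := (RingHom.id D.A3).comp (of D.d3))
        (g := (D.t2.comp (D.t2.comp D.t2)).comp (of D.d3)) e1 e2 r
  have key := Cyc.comm_ext (f := RingHom.id D.A3) (g := D.t2.comp (D.t2.comp D.t2)) h1 e3 x
  rw [RingHom.comp_apply, RingHom.comp_apply, RingHom.id_apply] at key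
  exact key

/-- third step -/
def d2 : CycData D.A3 where
  τ := D.t2
  b := D.j3 D.a2
  τb := by rw [t2_j, D.s2a2]
  hb := D.t2_t2_t2

lemma d2_τ : D.d2.τ = D.t2 := rfl
lemma d2_b : D.d2.b = D.j3 D.a2 := rfl
lemma d3_τ : D.d3.τ = D.t3 := rfl
lemma d3_b : D.d3.b = of D.d1 D.a3 := rfl
lemma d1_τ : D.d1.τ = D.s1 := rfl
lemma d1_b : D.d1.b = D.a1 := rfl

/-- The algebra `⊕ K z1^a z3^b z2^c`. -/
abbrev Alg := Cyc D.d2

/-- The inclusion of the base ring. -/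
def ofK : K →+* D.Alg := (of D.d2).comp D.j3

/-- the generator `z1` -/
def z1 : D.Alg := of D.d2 D.y1

/-- the generator `z3` -/
def z3 : D.Alg := of D.d2 D.y3

/-- the generator `z2` -/
def z2 : D.Alg := z D.d2

lemma ofK_apply (k : K) : D.ofK k = of D.d2 (D.j3 k) := rfl

lemma ofK_def (k : K) : D.ofK k = of D.d2 (of D.d3 (of D.d1 k)) := rfl
lemma z1_def' : D.z1 = of D.d2 (of D.d3 (z D.d1)) := rfl
lemma z3_def' : D.z3 = of D.d2 (z D.d3) := rfl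
lemma z2_def : D.z2 = z D.d2 := rfl

lemma z1_ofK (k : K) : D.z1 * D.ofK k = D.ofK (D.s1 k) * D.z1 := by
  rw [z1, ofK_apply, ofK_apply, ← map_mul, ← map_mul, y1_j]

lemma z3_ofK (k : K) : D.z3 * D.ofK k = D.ofK (D.s3 k) * D.z3 := by
  rw [z3, ofK_apply, ofK_apply, ← map_mul, ← map_mul, y3_j]

lemma z2_of (r : D.A3) : D.z2 * of D.d2 r = of D.d2 (D.t2 r) * D.z2 := by
  rw [z2, z_mul_of, d2_τ]

lemma z2_ofK (k : K) : D.z2 * D.ofK k = D.ofK (D.s2 k) * D.z2 := by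
  rw [ofK_apply, ofK_apply, z2_of, t2_j]

lemma z1_ofK' (k : K) (w : D.Alg) : D.z1 * (D.ofK k * w) = D.ofK (D.s1 k) * (D.z1 * w) := by
  rw [← mul_assoc, z1_ofK, mul_assoc]

lemma z3_ofK' (k : K) (w : D.Alg) : D.z3 * (D.ofK k * w) = D.ofK (D.s3 k) * (D.z3 * w) := by
  rw [← mul_assoc, z3_ofK, mul_assoc]

lemma z2_ofK' (k : K) (w : D.Alg) : D.z2 * (D.ofK k * w) = D.ofK (D.s2 k) * (D.z2 * w) := by
  rw [← mul_assoc, z2_ofK, mul_assoc]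

lemma z3_z1 : D.z3 * D.z1 = D.z1 * D.z3 := by
  rw [z3, z1, ← map_mul, ← map_mul, y3_y1]

lemma z1_def : D.z1 = of D.d2 D.y1 := rfl

lemma z3_def : D.z3 = of D.d2 D.y3 := rfl

lemma z2_z1 : D.z2 * D.z1 = D.ofK D.v1 * (D.z1 * D.z2) := by
  rw [z1_def, z2_of, t2_y1, map_mul, mul_assoc, ofK_apply]

lemma z2_z3 : D.z2 * D.z3 = D.ofK D.v3 * (D.z3 * D.z2) := by
  rw [z3_def, z2_of, t2_y3, map_mul, mul_assoc, ofK_apply]

lemma z1_z2 : D.z1 * D.z2 = D.ofK D.u1 * (D.z2 * D.z1) := by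
  rw [z2_z1, ← mul_assoc, ← map_mul, mul_comm D.u1, D.v1u1, map_one, one_mul]

lemma z3_z2 : D.z3 * D.z2 = D.ofK D.u3 * (D.z2 * D.z3) := by
  rw [z2_z3, ← mul_assoc, ← map_mul, mul_comm D.u3, D.v3u3, map_one, one_mul]

lemma z1_cube : D.z1 ^ 3 = D.ofK D.a1 := by
  rw [pow_succ, pow_two, mul_assoc, z1, ← map_mul, ← map_mul, y1_cube, ofK_apply]

lemma z3_cube : D.z3 ^ 3 = D.ofK D.a3 := by
  rw [pow_succ, pow_two, mul_assoc, z3, ← map_mul, ← map_mul, y3_cube, ofK_apply]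

lemma z2_cube : D.z2 ^ 3 = D.ofK D.a2 := by
  rw [z2, z_pow_three, d2_b, ofK_apply]

/-- The relations needed for a homomorphism out of `D.Alg`. -/
structure Rel {S : Type*} [Ring S] (φ : K →+* S) (Z1 Z2 Z3 : S) : Prop where
  h1 : ∀ k, Z1 * φ k = φ (D.s1 k) * Z1
  h2 : ∀ k, Z2 * φ k = φ (D.s2 k) * Z2
  h3 : ∀ k, Z3 * φ k = φ (D.s3 k) * Z3
  h31 : Z3 * Z1 = Z1 * Z3
  h21 : Z2 * Z1 = φ D.v1 * Z1 * Z2
  h23 : Z2 * Z3 = φ D.v3 * Z3 * Z2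
  p1 : Z1 ^ 3 = φ D.a1
  p2 : Z2 ^ 3 = φ D.a2
  p3 : Z3 ^ 3 = φ D.a3

section lift

variable {D} {S : Type*} [Ring S] {φ : K →+* S} {Z1 Z2 Z3 : S} (h : D.Rel φ Z1 Z2 Z3)

include h

/-- first step of `lift` -/
@[irreducible] def lift1 : D.A1 →+* S := Cyc.lift (d := D.d1) φ Z1 h.h1 h.p1

lemma lift1_of (k : K) : lift1 h (of D.d1 k) = φ k := by
  unfold lift1
  exact lift_of _ _ _ _ k

lemma lift1_z : lift1 h (z D.d1) = Z1 := by
  unfold lift1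
  exact lift_z _ _ _ _

lemma lift1_comm (r : D.A1) : Z3 * lift1 h r = lift1 h (D.t3 r) * Z3 := by
  have e1 : ∀ k, Z3 * lift1 h (of D.d1 k) = ((lift1 h).comp D.t3) (of D.d1 k) * Z3 := fun k => by
    rw [RingHom.comp_apply, t3_of, lift1_of, lift1_of, h.h3]
  have e2 : Z3 * lift1 h (z D.d1) = ((lift1 h).comp D.t3) (z D.d1) * Z3 := by
    rw [RingHom.comp_apply, t3_z, lift1_z, h.h31]
  have key := Cyc.comm_ext (f := lift1 h) (g := (lift1 h).comp D.t3) e1 e2 r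
  rw [RingHom.comp_apply] at key
  exact key

lemma lift1_cube : Z3 ^ 3 = lift1 h (of D.d1 D.a3) := by
  rw [lift1_of, h.p3]

/-- second step of `lift` -/
@[irreducible] def lift3 : D.A3 →+* S :=
  Cyc.lift (d := D.d3) (lift1 h) Z3 (lift1_comm h) (lift1_cube h)

lemma lift3_of (r : D.A1) : lift3 h (of D.d3 r) = lift1 h r := by
  unfold lift3
  exact lift_of _ _ _ _ r

lemma lift3_j (k : K) : lift3 h (D.j3 k) = φ k := by
  have e : D.j3 k = of D.d3 (of D.d1 k) := rfl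
  rw [e, lift3_of, lift1_of]

lemma lift3_y1 : lift3 h D.y1 = Z1 := by
  have e : D.y1 = of D.d3 (z D.d1) := rfl
  rw [e, lift3_of, lift1_z]

lemma lift3_y3 : lift3 h D.y3 = Z3 := by
  unfold lift3
  exact lift_z _ _ _ _

lemma lift3_comm (r : D.A3) : Z2 * lift3 h r = lift3 h (D.t2 r) * Z2 := by
  have e0 : ∀ k, Z2 * ((lift3 h).comp (of D.d3)) (of D.d1 k) =
      (((lift3 h).comp D.t2).comp (of D.d3)) (of D.d1 k) * Z2 := fun k => by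
    change Z2 * lift3 h (D.j3 k) = lift3 h (D.t2 (D.j3 k)) * Z2
    rw [t2_j, lift3_j, lift3_j, h.h2]
  have e0' : Z2 * ((lift3 h).comp (of D.d3)) (z D.d1) =
      (((lift3 h).comp D.t2).comp (of D.d3)) (z D.d1) * Z2 := by
    change Z2 * lift3 h D.y1 = lift3 h (D.t2 D.y1) * Z2
    rw [t2_y1, map_mul, lift3_j, lift3_y1, h.h21]
  have e1 : ∀ r, Z2 * lift3 h (of D.d3 r) = ((lift3 h).comp D.t2) (of D.d3 r) * Z2 := fun r =>
    Cyc.comm_ext (f := (lift3 h).comp (of D.d3)) (g := ((lift3 h).comp D.t2).comp (of D.d3))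
      e0 e0' r
  have e2 : Z2 * lift3 h (z D.d3) = ((lift3 h).comp D.t2) (z D.d3) * Z2 := by
    change Z2 * lift3 h D.y3 = lift3 h (D.t2 D.y3) * Z2
    rw [t2_y3, map_mul, lift3_j, lift3_y3, h.h23]
  have key := Cyc.comm_ext (f := lift3 h) (g := (lift3 h).comp D.t2) e1 e2 r
  rw [RingHom.comp_apply] at key
  exact key

lemma lift3_cube : Z2 ^ 3 = lift3 h (D.j3 D.a2) := by
  rw [lift3_j, h.p2]

/-- The universal property of `D.Alg`. -/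
@[irreducible] def lift : D.Alg →+* S :=
  Cyc.lift (d := D.d2) (lift3 h) Z2 (lift3_comm h) (lift3_cube h)

lemma lift_of' (r : D.A3) : lift h (of D.d2 r) = lift3 h r := by
  unfold lift
  exact lift_of _ _ _ _ r

@[simp] lemma lift_ofK (k : K) : lift h (D.ofK k) = φ k := by
  rw [ofK_apply, lift_of', lift3_j]

@[simp] lemma lift_z1 : lift h D.z1 = Z1 := by
  rw [z1, lift_of', lift3_y1]

@[simp] lemma lift_z3 : lift h D.z3 = Z3 := by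
  rw [z3, lift_of', lift3_y3]

@[simp] lemma lift_z2 : lift h D.z2 = Z2 := by
  unfold lift
  exact lift_z _ _ _ _

end lift

attribute [irreducible] ofK z1 z2 z3

variable {D} in
/-- Intertwining relations can be checked on the generators. -/
theorem comm_ext {S : Type*} [Ring S] {f g : D.Alg →+* S} {w : S}
    (h : ∀ k, w * f (D.ofK k) = g (D.ofK k) * w) (h1 : w * f D.z1 = g D.z1 * w)
    (h3 : w * f D.z3 = g D.z3 * w) (h2 : w * f D.z2 = g D.z2 * w) (x : D.Alg) :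
    w * f x = g x * w := by
  have h' : ∀ k, w * f (of D.d2 (of D.d3 (of D.d1 k))) =
      g (of D.d2 (of D.d3 (of D.d1 k))) * w := fun k => by rw [← ofK_def, h]
  rw [z1_def'] at h1
  rw [z3_def'] at h3
  rw [z2_def] at h2
  have e0 : ∀ r, w * (f.comp (of D.d2)) (of D.d3 r) = (g.comp (of D.d2)) (of D.d3 r) * w :=
    fun r => Cyc.comm_ext (f := (f.comp (of D.d2)).comp (of D.d3))
      (g := (g.comp (of D.d2)).comp (of D.d3)) h' h1 r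
  have e1 : ∀ r, w * f (of D.d2 r) = g (of D.d2 r) * w := fun r =>
    Cyc.comm_ext (f := f.comp (of D.d2)) (g := g.comp (of D.d2)) e0 h3 r
  exact Cyc.comm_ext e1 h2 x

variable {D} in
theorem hom_ext {S : Type*} [Ring S] {f g : D.Alg →+* S}
    (h : ∀ k, f (D.ofK k) = g (D.ofK k)) (h1 : f D.z1 = g D.z1)
    (h3 : f D.z3 = g D.z3) (h2 : f D.z2 = g D.z2) (x : D.Alg) : f x = g x := by
  have := comm_ext (D := D) (w := (1 : S)) (f := f) (g := g) (fun k => by rw [h, one_mul, mul_one])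
    (by rw [h1, one_mul, mul_one]) (by rw [h3, one_mul, mul_one]) (by rw [h2, one_mul, mul_one]) x
  simpa using this

end AlgData

end Pool.Agent.H.MP_9e990c_al
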