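import Mathlib

/-! Cyclic cubic extensions `R[z; τ]/(z^3 - b)` of a (non-commutative) ring `R`. -/

set_option linter.unusedSimpArgs false

namespace Pool.Agent.H.MP_9e990c_al

/-- The data of a cyclic cubic extension `R[z; τ]/(z^3 - b)`. -/
structure CycData (R : Type*) [Ring R] where
  /-- the twisting endomorphism (bijective as soon as `b` is a unit) -/
  τ : R →+* R
  /-- the cube of the new generator -/
  b : R
  τb : τ b = b
  hb : ∀ r, b * r = τ (τ (τ r)) * b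

/-- The ring `R[z; τ]/(z^3 - b)`, with coordinates with respect to the left basis `1, z, z^2`. -/
@[ext] structure Cyc {R : Type*} [Ring R] (d : CycData R) where
  /-- coefficient of `1` -/
  c0 : R
  /-- coefficient of `z` -/
  c1 : R
  /-- coefficient of `z^2` -/
  c2 : R

namespace Cyc

variable {R : Type*} [Ring R] {d : CycData R}

/-- coordinates -/
def toProd (x : Cyc d) : R × R × R := (x.c0, x.c1, x.c2)

lemma toProd_injective : Function.Injective (toProd (d := d)) := by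
  intro x y h
  simp only [toProd, Prod.mk.injEq] at h
  exact Cyc.ext h.1 h.2.1 h.2.2

instance : Zero (Cyc d) := ⟨⟨0, 0, 0⟩⟩
instance : One (Cyc d) := ⟨⟨1, 0, 0⟩⟩
instance : Add (Cyc d) := ⟨fun x y => ⟨x.c0 + y.c0, x.c1 + y.c1, x.c2 + y.c2⟩⟩
instance : Neg (Cyc d) := ⟨fun x => ⟨-x.c0, -x.c1, -x.c2⟩⟩
instance : Sub (Cyc d) := ⟨fun x y => ⟨x.c0 - y.c0, x.c1 - y.c1, x.c2 - y.c2⟩⟩
instance : SMul ℕ (Cyc d) := ⟨fun n x => ⟨n • x.c0, n • x.c1, n • x.c2⟩⟩
instance : SMul ℤ (Cyc d) := ⟨fun n x => ⟨n • x.c0, n • x.c1, n • x.c2⟩⟩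
instance : Mul (Cyc d) := ⟨fun x y =>
  ⟨x.c0 * y.c0 + x.c1 * d.τ y.c2 * d.b + x.c2 * d.τ (d.τ y.c1) * d.b,
   x.c0 * y.c1 + x.c1 * d.τ y.c0 + x.c2 * d.τ (d.τ y.c2) * d.b,
   x.c0 * y.c2 + x.c1 * d.τ y.c1 + x.c2 * d.τ (d.τ y.c0)⟩⟩

@[simp] lemma zero_c0 : (0 : Cyc d).c0 = 0 := rfl
@[simp] lemma zero_c1 : (0 : Cyc d).c1 = 0 := rfl
@[simp] lemma zero_c2 : (0 : Cyc d).c2 = 0 := rfl
@[simp] lemma one_c0 : (1 : Cyc d).c0 = 1 := rfl
@[simp] lemma one_c1 : (1 : Cyc d).c1 = 0 := rfl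
@[simp] lemma one_c2 : (1 : Cyc d).c2 = 0 := rfl
@[simp] lemma add_c0 (x y : Cyc d) : (x + y).c0 = x.c0 + y.c0 := rfl
@[simp] lemma add_c1 (x y : Cyc d) : (x + y).c1 = x.c1 + y.c1 := rfl
@[simp] lemma add_c2 (x y : Cyc d) : (x + y).c2 = x.c2 + y.c2 := rfl
@[simp] lemma neg_c0 (x : Cyc d) : (-x).c0 = -x.c0 := rfl
@[simp] lemma neg_c1 (x : Cyc d) : (-x).c1 = -x.c1 := rfl
@[simp] lemma neg_c2 (x : Cyc d) : (-x).c2 = -x.c2 := rfl
@[simp] lemma sub_c0 (x y : Cyc d) : (x - y).c0 = x.c0 - y.c0 := rfl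
@[simp] lemma sub_c1 (x y : Cyc d) : (x - y).c1 = x.c1 - y.c1 := rfl
@[simp] lemma sub_c2 (x y : Cyc d) : (x - y).c2 = x.c2 - y.c2 := rfl
lemma mul_c0 (x y : Cyc d) :
    (x * y).c0 = x.c0 * y.c0 + x.c1 * d.τ y.c2 * d.b + x.c2 * d.τ (d.τ y.c1) * d.b := rfl
lemma mul_c1 (x y : Cyc d) :
    (x * y).c1 = x.c0 * y.c1 + x.c1 * d.τ y.c0 + x.c2 * d.τ (d.τ y.c2) * d.b := rfl
lemma mul_c2 (x y : Cyc d) :
    (x * y).c2 = x.c0 * y.c2 + x.c1 * d.τ y.c1 + x.c2 * d.τ (d.τ y.c0) := rfl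

instance : AddCommGroup (Cyc d) :=
  toProd_injective.addCommGroup toProd rfl (fun _ _ => rfl) (fun _ => rfl) (fun _ _ => rfl)
    (fun _ _ => rfl) (fun _ _ => rfl)

private lemma hb2 (d : CycData R) (r s : R) : d.b * (r * s) = d.τ (d.τ (d.τ r)) * (d.b * s) := by
  rw [← mul_assoc, d.hb, mul_assoc]

instance : Ring (Cyc d) where
  __ := (inferInstance : AddCommGroup (Cyc d))
  zero_mul x := by ext <;> simp [mul_c0, mul_c1, mul_c2]
  mul_zero x := by ext <;> simp [mul_c0, mul_c1, mul_c2]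
  one_mul x := by ext <;> simp [mul_c0, mul_c1, mul_c2]
  mul_one x := by ext <;> simp [mul_c0, mul_c1, mul_c2]
  left_distrib x y z := by
    ext <;> simp only [mul_c0, mul_c1, mul_c2, add_c0, add_c1, add_c2, map_add, mul_add, add_mul]
      <;> abel
  right_distrib x y z := by
    ext <;> simp only [mul_c0, mul_c1, mul_c2, add_c0, add_c1, add_c2, map_add, mul_add, add_mul]
      <;> abel
  mul_assoc x y z := by
    ext <;> simp only [mul_c0, mul_c1, mul_c2, map_add, map_mul, mul_add, add_mul, mul_assoc,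
      d.τb, d.hb z.c0, d.hb z.c1, d.hb z.c2, d.hb (d.τ z.c0), d.hb (d.τ z.c1), d.hb (d.τ z.c2),
      d.hb (d.τ (d.τ z.c0)), d.hb (d.τ (d.τ z.c1)), d.hb (d.τ (d.τ z.c2)),
      hb2 d z.c0, hb2 d z.c1, hb2 d z.c2, hb2 d (d.τ z.c0), hb2 d (d.τ z.c1), hb2 d (d.τ z.c2),
      hb2 d (d.τ (d.τ z.c0)), hb2 d (d.τ (d.τ z.c1)), hb2 d (d.τ (d.τ z.c2))]
      <;> abel

/-- The inclusion of the coefficient ring. -/
def of (d : CycData R) : R →+* Cyc d where
  toFun r := ⟨r, 0, 0⟩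
  map_one' := rfl
  map_zero' := rfl
  map_add' x y := by ext <;> simp
  map_mul' x y := by ext <;> simp [mul_c0, mul_c1, mul_c2]

@[simp] lemma of_c0 (r : R) : (of d r).c0 = r := rfl
@[simp] lemma of_c1 (r : R) : (of d r).c1 = 0 := rfl
@[simp] lemma of_c2 (r : R) : (of d r).c2 = 0 := rfl

lemma of_injective : Function.Injective (of d) := fun x y h => by
  simpa using congrArg Cyc.c0 h

/-- The new generator. -/
def z (d : CycData R) : Cyc d := ⟨0, 1, 0⟩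

@[simp] lemma z_c0 : (z d).c0 = 0 := rfl
@[simp] lemma z_c1 : (z d).c1 = 1 := rfl
@[simp] lemma z_c2 : (z d).c2 = 0 := rfl

lemma z_mul_of (r : R) : z d * of d r = of d (d.τ r) * z d := by
  ext <;> simp [mul_c0, mul_c1, mul_c2]

lemma z_sq : z d * z d = ⟨0, 0, 1⟩ := by
  ext <;> simp [mul_c0, mul_c1, mul_c2]

lemma z_cube' : z d * (z d * z d) = of d d.b := by
  rw [z_sq]
  ext <;> simp [mul_c0, mul_c1, mul_c2]

lemma z_pow_three : z d ^ 3 = of d d.b := by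
  rw [pow_succ, pow_two, mul_assoc, z_cube']

lemma mul_of_c0 (x : Cyc d) (r : R) : (x * of d r).c0 = x.c0 * r := by
  simp [mul_c0]
lemma mul_of_c1 (x : Cyc d) (r : R) : (x * of d r).c1 = x.c1 * d.τ r := by
  simp [mul_c1]
lemma mul_of_c2 (x : Cyc d) (r : R) : (x * of d r).c2 = x.c2 * d.τ (d.τ r) := by
  simp [mul_c2]
@[simp] lemma of_mul_c0 (x : Cyc d) (r : R) : (of d r * x).c0 = r * x.c0 := by
  simp [mul_c0]
@[simp] lemma of_mul_c1 (x : Cyc d) (r : R) : (of d r * x).c1 = r * x.c1 := by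
  simp [mul_c1]
@[simp] lemma of_mul_c2 (x : Cyc d) (r : R) : (of d r * x).c2 = r * x.c2 := by
  simp [mul_c2]
lemma z_mul_c0 (x : Cyc d) : (z d * x).c0 = d.τ x.c2 * d.b := by simp [mul_c0]
lemma z_mul_c1 (x : Cyc d) : (z d * x).c1 = d.τ x.c0 := by simp [mul_c1]
lemma z_mul_c2 (x : Cyc d) : (z d * x).c2 = d.τ x.c1 := by simp [mul_c2]
lemma mul_z_c0 (x : Cyc d) : (x * z d).c0 = x.c2 * d.b := by simp [mul_c0]
lemma mul_z_c1 (x : Cyc d) : (x * z d).c1 = x.c0 := by simp [mul_c1]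
lemma mul_z_c2 (x : Cyc d) : (x * z d).c2 = x.c1 := by simp [mul_c2]

lemma eq_sum (x : Cyc d) : x = of d x.c0 + of d x.c1 * z d + of d x.c2 * (z d * z d) := by
  rw [z_sq]
  ext <;> simp [mul_c0, mul_c1, mul_c2]

section lift

variable {S : Type*} [Ring S] (φ : R →+* S) (Z : S) (hZ : ∀ r, Z * φ r = φ (d.τ r) * Z)
  (hZ3 : Z ^ 3 = φ d.b)

/-- The universal property of `Cyc d`. -/
def lift (φ : R →+* S) (Z : S) (hZ : ∀ r, Z * φ r = φ (d.τ r) * Z)
    (hZ3 : Z ^ 3 = φ d.b) : Cyc d →+* S where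
  toFun x := φ x.c0 + φ x.c1 * Z + φ x.c2 * (Z * Z)
  map_one' := by simp
  map_zero' := by simp
  map_add' x y := by
    simp only [add_c0, add_c1, add_c2, map_add, add_mul]
    abel
  map_mul' x y := by
    have h3 : Z * (Z * Z) = φ d.b := by rw [← hZ3, pow_succ, pow_two, mul_assoc]
    have hZ' : ∀ r w, Z * (φ r * w) = φ (d.τ r) * (Z * w) := fun r w => by
      rw [← mul_assoc, hZ, mul_assoc]
    simp only [mul_c0, mul_c1, mul_c2, map_add, map_mul, mul_add, add_mul, mul_assoc, h3, hZ, hZ',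
      d.τb]
    abel

lemma lift_apply (x : Cyc d) :
    lift φ Z hZ hZ3 x = φ x.c0 + φ x.c1 * Z + φ x.c2 * (Z * Z) := rfl

@[simp] lemma lift_of (r : R) : lift φ Z hZ hZ3 (of d r) = φ r := by
  simp [lift_apply]

@[simp] lemma lift_z : lift φ Z hZ hZ3 (z d) = Z := by
  simp [lift_apply]

end lift

/-- Two homomorphisms out of `Cyc d` agreeing on `R` and on `z` are equal. -/
theorem hom_ext {S : Type*} [Ring S] {f g : Cyc d →+* S} (h : ∀ r, f (of d r) = g (of d r))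
    (hz : f (z d) = g (z d)) : f = g := by
  ext x
  rw [eq_sum x]
  simp only [map_add, map_mul, h, hz]

theorem hom_ext_apply {S : Type*} [Ring S] {f g : Cyc d →+* S}
    (h : ∀ r, f (of d r) = g (of d r)) (hz : f (z d) = g (z d)) (x : Cyc d) : f x = g x := by
  rw [hom_ext h hz]

/-- Intertwining relations can be checked on `R` and on `z`. -/
theorem comm_ext {S : Type*} [Ring S] {f g : Cyc d →+* S} {w : S}
    (h : ∀ r, w * f (of d r) = g (of d r) * w) (hz : w * f (z d) = g (z d) * w) (x : Cyc d) :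
    w * f x = g x * w := by
  have hz2 : w * f (z d * z d) = g (z d * z d) * w := by
    rw [map_mul, ← mul_assoc, hz, mul_assoc, hz, ← mul_assoc, ← map_mul]
  rw [eq_sum x]
  simp only [map_add, mul_add, add_mul]
  rw [h]
  congr 1
  · congr 1
    rw [map_mul f, map_mul g, ← mul_assoc, h, mul_assoc, hz, mul_assoc]
  · rw [map_mul f (of d x.c2), map_mul g (of d x.c2), ← mul_assoc, h, mul_assoc, hz2, mul_assoc]

/-- An endomorphism fixing `R` and `z` is the identity. -/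
theorem eq_id {f : Cyc d →+* Cyc d} (h : ∀ r, f (of d r) = of d r) (hz : f (z d) = z d)
    (x : Cyc d) : f x = x :=
  hom_ext_apply (f := f) (g := RingHom.id _) h hz x

/-- `z` is a unit when `b` is. -/
theorem isUnit_z (h : IsUnit d.b) : IsUnit (z d) := by
  obtain ⟨u, hu⟩ := h
  have h1 : z d * (z d * z d * of d (↑u⁻¹ : R)) = 1 := by
    rw [← mul_assoc, z_cube', ← hu, ← map_mul, Units.mul_inv, map_one]
  have h2 : (of d (↑u⁻¹ : R) * (z d * z d)) * z d = 1 := by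
    rw [mul_assoc, mul_assoc, z_cube', ← hu, ← map_mul, Units.inv_mul, map_one]
  have h3 : of d (↑u⁻¹ : R) * (z d * z d) = z d * z d * of d (↑u⁻¹ : R) :=
    left_inv_eq_right_inv h2 h1
  exact ⟨⟨z d, z d * z d * of d (↑u⁻¹ : R), h1, by rw [← h3, h2]⟩, rfl⟩

end Cyc

end Pool.Agent.H.MP_9e990c_al
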