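import Pool.Agent.H.MP_9e990c_al.h79.Alg

/-! Coordinates, involution and functoriality of `AlgData.Alg`. -/

set_option linter.unusedSimpArgs false

namespace Pool.Agent.H.MP_9e990c_al

namespace Cyc

variable {R : Type*} [Ring R] {d : CycData R}

/-- the three coordinates as a function -/
def cf (x : Cyc d) (i : Fin 3) : R := ![x.c0, x.c1, x.c2] i

lemma cf_zero (x : Cyc d) : cf x 0 = x.c0 := rfl
lemma cf_one (x : Cyc d) : cf x 1 = x.c1 := rfl
lemma cf_two (x : Cyc d) : cf x 2 = x.c2 := rfl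

lemma cf_ext {x y : Cyc d} (h : ∀ i, cf x i = cf y i) : x = y :=
  Cyc.ext (h 0) (h 1) (h 2)

lemma sum_c0 (c : Fin 3 → R) : (∑ i : Fin 3, of d (c i) * z d ^ (i : ℕ)).c0 = c 0 := by
  rw [Fin.sum_univ_three]
  simp only [Fin.val_zero, Fin.val_one, Fin.val_two, pow_zero, pow_one, mul_one, pow_two,
    add_c0, of_mul_c0, z_sq, z_c0, of_c0, mul_zero, add_zero]

lemma sum_c1 (c : Fin 3 → R) : (∑ i : Fin 3, of d (c i) * z d ^ (i : ℕ)).c1 = c 1 := by
  rw [Fin.sum_univ_three]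
  simp only [Fin.val_zero, Fin.val_one, Fin.val_two, pow_zero, pow_one, mul_one, pow_two,
    add_c1, of_mul_c1, z_sq, z_c1, of_c1, mul_zero, add_zero, zero_add]

lemma sum_c2 (c : Fin 3 → R) : (∑ i : Fin 3, of d (c i) * z d ^ (i : ℕ)).c2 = c 2 := by
  rw [Fin.sum_univ_three]
  simp only [Fin.val_zero, Fin.val_one, Fin.val_two, pow_zero, pow_one, mul_one, pow_two,
    add_c2, of_mul_c2, z_sq, z_c2, of_c2, mul_zero, add_zero, zero_add]

lemma cf_sum (c : Fin 3 → R) (i : Fin 3) :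
    cf (∑ i : Fin 3, of d (c i) * z d ^ (i : ℕ)) i = c i := by
  fin_cases i
  · exact sum_c0 c
  · exact sum_c1 c
  · exact sum_c2 c

lemma sum_cf (x : Cyc d) : ∑ i : Fin 3, of d (cf x i) * z d ^ (i : ℕ) = x :=
  cf_ext (cf_sum _)

end Cyc

namespace AlgData

open Cyc

variable {K : Type*} [CommRing K] (D : AlgData K)

lemma z1_z3 : D.z1 * D.z3 = D.z3 * D.z1 := D.z3_z1.symm

lemma z1_z2' : D.z1 * D.z2 = D.ofK D.u1 * D.z2 * D.z1 := by rw [z1_z2, mul_assoc]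

lemma z3_z2' : D.z3 * D.z2 = D.ofK D.u3 * D.z2 * D.z3 := by rw [z3_z2, mul_assoc]

lemma ofK_injective : Function.Injective D.ofK := fun x y h => by
  rw [ofK_def, ofK_def] at h
  exact of_injective (of_injective (of_injective h))

/-! ### Coordinates -/

/-- the coordinate of `x` at `z1^a z3^b z2^c` -/
def coord {D : AlgData K} (x : D.Alg) (a b c : Fin 3) : K := cf (cf (cf x c) b) a

/-- the element with given coordinates -/
def ofCoord (c : Fin 3 → Fin 3 → Fin 3 → K) : D.Alg :=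
  ∑ k : Fin 3, of D.d2 (∑ j : Fin 3, of D.d3 (∑ i : Fin 3, of D.d1 (c i j k) *
    z D.d1 ^ (i : ℕ)) * z D.d3 ^ (j : ℕ)) * z D.d2 ^ (k : ℕ)

lemma coord_ofCoord (c : Fin 3 → Fin 3 → Fin 3 → K) (i j k : Fin 3) :
    coord (D.ofCoord c) i j k = c i j k := by
  unfold coord ofCoord
  rw [cf_sum, cf_sum, cf_sum]

lemma coord_ext {D : AlgData K} {x y : D.Alg} (h : ∀ i j k, coord x i j k = coord y i j k) :
    x = y :=
  cf_ext fun k => cf_ext fun j => cf_ext fun i => h i j k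

lemma ofCoord_coord (x : D.Alg) : D.ofCoord (coord x) = x :=
  coord_ext (D.coord_ofCoord _)

lemma ofCoord_eq (c : Fin 3 → Fin 3 → Fin 3 → K) :
    D.ofCoord c = ∑ k : Fin 3, ∑ j : Fin 3, ∑ i : Fin 3,
      D.ofK (c i j k) * (D.z1 ^ (i : ℕ) * D.z3 ^ (j : ℕ) * D.z2 ^ (k : ℕ)) := by
  unfold ofCoord
  refine Finset.sum_congr rfl fun k _ => ?_
  rw [map_sum, Finset.sum_mul]
  refine Finset.sum_congr rfl fun j _ => ?_
  rw [map_mul, map_sum, map_sum, Finset.sum_mul, Finset.sum_mul]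
  refine Finset.sum_congr rfl fun i _ => ?_
  rw [ofK_def, z1_def', z3_def', z2_def]
  simp only [map_mul, map_pow, mul_assoc]

lemma ofCoord_eq' (c : Fin 3 → Fin 3 → Fin 3 → K) :
    D.ofCoord c = ∑ i : Fin 3, ∑ j : Fin 3, ∑ k : Fin 3,
      D.ofK (c i j k) * (D.z1 ^ (i : ℕ) * D.z3 ^ (j : ℕ) * D.z2 ^ (k : ℕ)) := by
  rw [ofCoord_eq]
  have h1 : ∀ f : Fin 3 → Fin 3 → Fin 3 → D.Alg,
      ∑ k : Fin 3, ∑ j : Fin 3, ∑ i : Fin 3, f i j k =
        ∑ i : Fin 3, ∑ j : Fin 3, ∑ k : Fin 3, f i j k := fun f => by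
    calc ∑ k : Fin 3, ∑ j : Fin 3, ∑ i : Fin 3, f i j k
        = ∑ k : Fin 3, ∑ i : Fin 3, ∑ j : Fin 3, f i j k :=
          Finset.sum_congr rfl fun k _ => Finset.sum_comm
      _ = ∑ i : Fin 3, ∑ k : Fin 3, ∑ j : Fin 3, f i j k := Finset.sum_comm
      _ = _ := Finset.sum_congr rfl fun i _ => Finset.sum_comm
  exact h1 _

theorem eq_sum_coord (x : D.Alg) : x = ∑ i : Fin 3, ∑ j : Fin 3, ∑ k : Fin 3,
    D.ofK (coord x i j k) * (D.z1 ^ (i : ℕ) * D.z3 ^ (j : ℕ) * D.z2 ^ (k : ℕ)) := by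
  rw [← ofCoord_eq', ofCoord_coord]

/-- Existence and uniqueness of coordinates. -/
theorem existsUnique_coord (x : D.Alg) : ∃! c : Fin 3 → Fin 3 → Fin 3 → K,
    x = ∑ a : Fin 3, ∑ b : Fin 3, ∑ d : Fin 3,
      D.ofK (c a b d) * (D.z1 ^ (a : ℕ) * D.z3 ^ (b : ℕ) * D.z2 ^ (d : ℕ)) := by
  refine ⟨coord x, D.eq_sum_coord x, fun c hc => ?_⟩
  beta_reduce at hc
  rw [← ofCoord_eq'] at hc
  funext i j k
  rw [hc, coord_ofCoord]

/-- Existence and uniqueness of coordinates, uncurried form. -/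
theorem existsUnique_coord' (x : D.Alg) : ∃! c : Fin 3 × Fin 3 × Fin 3 → K,
    x = ∑ i : Fin 3 × Fin 3 × Fin 3,
      D.ofK (c i) * (D.z1 ^ (i.1 : ℕ) * D.z3 ^ (i.2.1 : ℕ) * D.z2 ^ (i.2.2 : ℕ)) := by
  have key : ∀ c : Fin 3 × Fin 3 × Fin 3 → K, ∑ i : Fin 3 × Fin 3 × Fin 3,
      D.ofK (c i) * (D.z1 ^ (i.1 : ℕ) * D.z3 ^ (i.2.1 : ℕ) * D.z2 ^ (i.2.2 : ℕ)) =
      D.ofCoord (fun a b d => c (a, b, d)) := fun c => by
    rw [ofCoord_eq', Fintype.sum_prod_type]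
    refine Finset.sum_congr rfl fun i _ => ?_
    rw [Fintype.sum_prod_type]
  refine ⟨fun i => coord x i.1 i.2.1 i.2.2, ?_, fun c hc => ?_⟩
  · beta_reduce
    rw [key, ofCoord_coord]
  · beta_reduce at hc
    rw [key] at hc
    funext ⟨i, j, k⟩
    simp only [hc, coord_ofCoord]

/-! ### The generators are units -/

lemma unit_a1 : D.ofK D.a1 * D.ofK (D.sg D.a1) = 1 := by rw [← map_mul, D.a1sg, map_one]
lemma unit_a2 : D.ofK D.a2 * D.ofK (D.sg D.a2) = 1 := by rw [← map_mul, D.a2sg, map_one]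
lemma unit_a3 : D.ofK D.a3 * D.ofK (D.sg D.a3) = 1 := by rw [← map_mul, D.a3sg, map_one]

/-- the inverse of `z1` -/
@[irreducible] def w1 : D.Alg := D.ofK (D.sg D.a1) * D.z1 ^ 2

/-- the inverse of `z2` -/
@[irreducible] def w2 : D.Alg := D.ofK (D.sg D.a2) * D.z2 ^ 2

/-- the inverse of `z3` -/
@[irreducible] def w3 : D.Alg := D.ofK (D.sg D.a3) * D.z3 ^ 2

lemma z1_w1 : D.z1 * D.w1 = 1 := by
  have h : D.z1 * (D.ofK (D.sg D.a1) * D.z1 ^ 2) = D.ofK (D.s1 (D.sg D.a1)) * D.z1 ^ 3 := by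
    rw [z1_ofK', pow_succ' _ 2]
  have h2 : D.s1 (D.sg D.a1) * D.a1 = 1 := by
    nth_rw 2 [← D.s1a1]
    rw [← map_mul, mul_comm, D.a1sg, map_one]
  unfold w1
  rw [h, z1_cube, ← map_mul, h2, map_one]

lemma w1_z1 : D.w1 * D.z1 = 1 := by
  unfold w1
  rw [mul_assoc, ← pow_succ, z1_cube, ← map_mul, mul_comm, D.a1sg, map_one]

lemma z2_w2 : D.z2 * D.w2 = 1 := by
  have h : D.z2 * (D.ofK (D.sg D.a2) * D.z2 ^ 2) = D.ofK (D.s2 (D.sg D.a2)) * D.z2 ^ 3 := by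
    rw [z2_ofK', pow_succ' _ 2]
  have h2 : D.s2 (D.sg D.a2) * D.a2 = 1 := by
    nth_rw 2 [← D.s2a2]
    rw [← map_mul, mul_comm, D.a2sg, map_one]
  unfold w2
  rw [h, z2_cube, ← map_mul, h2, map_one]

lemma w2_z2 : D.w2 * D.z2 = 1 := by
  unfold w2
  rw [mul_assoc, ← pow_succ, z2_cube, ← map_mul, mul_comm, D.a2sg, map_one]

lemma z3_w3 : D.z3 * D.w3 = 1 := by
  have h : D.z3 * (D.ofK (D.sg D.a3) * D.z3 ^ 2) = D.ofK (D.s3 (D.sg D.a3)) * D.z3 ^ 3 := by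
    rw [z3_ofK', pow_succ' _ 2]
  have h2 : D.s3 (D.sg D.a3) * D.a3 = 1 := by
    nth_rw 2 [← D.s3a3]
    rw [← map_mul, mul_comm, D.a3sg, map_one]
  unfold w3
  rw [h, z3_cube, ← map_mul, h2, map_one]

lemma w3_z3 : D.w3 * D.z3 = 1 := by
  unfold w3
  rw [mul_assoc, ← pow_succ, z3_cube, ← map_mul, mul_comm, D.a3sg, map_one]

lemma isUnit_z1 : IsUnit D.z1 := ⟨⟨D.z1, D.w1, D.z1_w1, D.w1_z1⟩, rfl⟩
lemma isUnit_z2 : IsUnit D.z2 := ⟨⟨D.z2, D.w2, D.z2_w2, D.w2_z2⟩, rfl⟩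
lemma isUnit_z3 : IsUnit D.z3 := ⟨⟨D.z3, D.w3, D.z3_w3, D.w3_z3⟩, rfl⟩

section inverse

variable {A : Type*} [Ring A] {i : K →+* A} {s : K →+* K} {Z W Z' W' : A}

lemma inv_mul_of (hzw : Z * W = 1) (hwz : W * Z = 1) (c : ∀ x, s (s (s x)) = x)
    (h : ∀ k, Z * i k = i (s k) * Z) (k : K) : W * i k = i (s (s k)) * W := by
  have h1 := h (s (s k))
  rw [c] at h1
  calc W * i k = W * (i k * Z) * W := by rw [mul_assoc, mul_assoc, hzw, mul_one]
    _ = _ := by rw [← h1, ← mul_assoc, hwz, one_mul]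

lemma inv_cube {a a' : A} (hwz : W * Z = 1) (h : Z ^ 3 = a) (ha : a * a' = 1) : W ^ 3 = a' := by
  have h1 : W ^ 3 * a = 1 := by
    rw [← h, pow_succ W 2, pow_two, pow_succ' Z 2, pow_two]
    calc W * W * W * (Z * (Z * Z)) = W * (W * (W * Z) * Z) * Z := by noncomm_ring
      _ = 1 := by rw [hwz, mul_one, hwz, mul_one, hwz]
  exact left_inv_eq_right_inv h1 ha

lemma inv_comm (hzw : Z * W = 1) (hwz : W * Z = 1) (hzw' : Z' * W' = 1) (hwz' : W' * Z' = 1)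
    (h : Z' * Z = Z * Z') : W' * W = W * W' := by
  have h1 : (W' * W) * (Z * Z') = 1 := by
    rw [mul_assoc, ← mul_assoc W, hwz, one_mul, hwz']
  have h2 : (Z * Z') * (W * W') = 1 := by
    rw [← h, mul_assoc, ← mul_assoc Z, hzw, one_mul, hzw']
  exact left_inv_eq_right_inv h1 h2

lemma inv_twist {u v : A} (hzw : Z * W = 1) (hwz : W * Z = 1) (hzw' : Z' * W' = 1)
    (hwz' : W' * Z' = 1) (huv : v * u = 1) (h : Z * Z' = u * (Z' * Z)) :
    W' * W = W * (W' * v) := by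
  have h1 : (Z * Z') * (W' * W) = 1 := by
    rw [mul_assoc, ← mul_assoc Z', hzw', one_mul, hzw]
  have h2 : (W * (W' * v)) * (Z * Z') = 1 := by
    rw [h, mul_assoc, mul_assoc, ← mul_assoc v, huv, one_mul, ← mul_assoc W', hwz', one_mul, hwz]
  exact (left_inv_eq_right_inv h2 h1).symm

end inverse

/-! ### The involution -/

lemma sgv1 : D.sg D.v1 = D.s1 (D.s1 (D.s2 (D.s2 D.v1))) := by
  have h1 : D.sg D.v1 * D.sg D.u1 = 1 := by rw [← map_mul, D.v1u1, map_one]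
  have h2 : D.s1 (D.s1 (D.s2 (D.s2 D.v1))) * D.sg D.u1 = 1 := by
    rw [D.sgu1, ← map_mul, ← map_mul, ← map_mul, ← map_mul, D.v1u1]
    simp only [map_one]
  calc D.sg D.v1 = D.sg D.v1 * (D.s1 (D.s1 (D.s2 (D.s2 D.v1))) * D.sg D.u1) := by rw [h2, mul_one]
    _ = D.s1 (D.s1 (D.s2 (D.s2 D.v1))) * (D.sg D.v1 * D.sg D.u1) := by ring
    _ = _ := by rw [h1, mul_one]

lemma sgv3 : D.sg D.v3 = D.s3 (D.s3 (D.s2 (D.s2 D.v3))) := by
  have h1 : D.sg D.v3 * D.sg D.u3 = 1 := by rw [← map_mul, D.v3u3, map_one]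
  have h2 : D.s3 (D.s3 (D.s2 (D.s2 D.v3))) * D.sg D.u3 = 1 := by
    rw [D.sgu3, ← map_mul, ← map_mul, ← map_mul, ← map_mul, D.v3u3]
    simp only [map_one]
  calc D.sg D.v3 = D.sg D.v3 * (D.s3 (D.s3 (D.s2 (D.s2 D.v3))) * D.sg D.u3) := by rw [h2, mul_one]
    _ = D.s3 (D.s3 (D.s2 (D.s2 D.v3))) * (D.sg D.v3 * D.sg D.u3) := by ring
    _ = _ := by rw [h1, mul_one]

lemma w1_ofK (k : K) : D.w1 * D.ofK k = D.ofK (D.s1 (D.s1 k)) * D.w1 :=
  inv_mul_of D.z1_w1 D.w1_z1 D.c1 D.z1_ofK k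

lemma w2_ofK (k : K) : D.w2 * D.ofK k = D.ofK (D.s2 (D.s2 k)) * D.w2 :=
  inv_mul_of D.z2_w2 D.w2_z2 D.c2 D.z2_ofK k

lemma w3_ofK (k : K) : D.w3 * D.ofK k = D.ofK (D.s3 (D.s3 k)) * D.w3 :=
  inv_mul_of D.z3_w3 D.w3_z3 D.c3 D.z3_ofK k

lemma ofK_v1_u1 : D.ofK D.v1 * D.ofK D.u1 = 1 := by rw [← map_mul, D.v1u1, map_one]
lemma ofK_v3_u3 : D.ofK D.v3 * D.ofK D.u3 = 1 := by rw [← map_mul, D.v3u3, map_one]

lemma w2_w1 : D.w2 * D.w1 = D.ofK (D.sg D.v1) * D.w1 * D.w2 := by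
  rw [inv_twist D.z1_w1 D.w1_z1 D.z2_w2 D.w2_z2 D.ofK_v1_u1 D.z1_z2, w2_ofK, ← mul_assoc, w1_ofK,
    ← sgv1]

lemma w2_w3 : D.w2 * D.w3 = D.ofK (D.sg D.v3) * D.w3 * D.w2 := by
  rw [inv_twist D.z3_w3 D.w3_z3 D.z2_w2 D.w2_z2 D.ofK_v3_u3 D.z3_z2, w2_ofK, ← mul_assoc, w3_ofK,
    ← sgv3]

lemma w3_w1 : D.w3 * D.w1 = D.w1 * D.w3 :=
  inv_comm D.z1_w1 D.w1_z1 D.z3_w3 D.w3_z3 D.z3_z1

lemma w1_cube : D.w1 ^ 3 = D.ofK (D.sg D.a1) := inv_cube D.w1_z1 D.z1_cube D.unit_a1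
lemma w2_cube : D.w2 ^ 3 = D.ofK (D.sg D.a2) := inv_cube D.w2_z2 D.z2_cube D.unit_a2
lemma w3_cube : D.w3 ^ 3 = D.ofK (D.sg D.a3) := inv_cube D.w3_z3 D.z3_cube D.unit_a3

/-- the relations for `sigma` -/
lemma sigma_rel : D.Rel (D.ofK.comp D.sg) D.w1 D.w2 D.w3 where
  h1 k := by rw [RingHom.comp_apply, RingHom.comp_apply, w1_ofK, D.sg1]
  h2 k := by rw [RingHom.comp_apply, RingHom.comp_apply, w2_ofK, D.sg2]
  h3 k := by rw [RingHom.comp_apply, RingHom.comp_apply, w3_ofK, D.sg3]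
  h31 := D.w3_w1
  h21 := by rw [RingHom.comp_apply, w2_w1]
  h23 := by rw [RingHom.comp_apply, w2_w3]
  p1 := by rw [RingHom.comp_apply, w1_cube]
  p2 := by rw [RingHom.comp_apply, w2_cube]
  p3 := by rw [RingHom.comp_apply, w3_cube]

/-- The extension of `sg` to `D.Alg` with `z_j ↦ z_j⁻¹`. -/
@[irreducible] def sigma : D.Alg →+* D.Alg := lift D.sigma_rel

@[simp] lemma sigma_ofK (k : K) : D.sigma (D.ofK k) = D.ofK (D.sg k) := by
  unfold sigma
  rw [lift_ofK, RingHom.comp_apply]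

lemma sigma_z1 : D.sigma D.z1 = D.w1 := by
  unfold sigma
  rw [lift_z1]

lemma sigma_z2 : D.sigma D.z2 = D.w2 := by
  unfold sigma
  rw [lift_z2]

lemma sigma_z3 : D.sigma D.z3 = D.w3 := by
  unfold sigma
  rw [lift_z3]

lemma z1_mul_sigma : D.z1 * D.sigma D.z1 = 1 := by rw [sigma_z1, z1_w1]
lemma z2_mul_sigma : D.z2 * D.sigma D.z2 = 1 := by rw [sigma_z2, z2_w2]
lemma z3_mul_sigma : D.z3 * D.sigma D.z3 = 1 := by rw [sigma_z3, z3_w3]
lemma sigma_mul_z1 : D.sigma D.z1 * D.z1 = 1 := by rw [sigma_z1, w1_z1]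
lemma sigma_mul_z2 : D.sigma D.z2 * D.z2 = 1 := by rw [sigma_z2, w2_z2]
lemma sigma_mul_z3 : D.sigma D.z3 * D.z3 = 1 := by rw [sigma_z3, w3_z3]

theorem sigma_sigma (x : D.Alg) : D.sigma (D.sigma x) = x := by
  have key : ∀ w : D.Alg, w * D.sigma w = 1 → D.sigma w * w = 1 → D.sigma (D.sigma w) = w := by
    intro w h1 h2
    have h3 : D.sigma w * D.sigma (D.sigma w) = 1 := by rw [← map_mul, h1, map_one]
    exact (left_inv_eq_right_inv h1 h3).symm
  have := hom_ext (D := D) (f := D.sigma.comp D.sigma) (g := RingHom.id D.Alg)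
    (fun k => by
      rw [RingHom.comp_apply, RingHom.id_apply, sigma_ofK, sigma_ofK, D.sgsg])
    (by rw [RingHom.comp_apply, RingHom.id_apply, key _ D.z1_mul_sigma D.sigma_mul_z1])
    (by rw [RingHom.comp_apply, RingHom.id_apply, key _ D.z3_mul_sigma D.sigma_mul_z3])
    (by rw [RingHom.comp_apply, RingHom.id_apply, key _ D.z2_mul_sigma D.sigma_mul_z2]) x
  rw [RingHom.comp_apply, RingHom.id_apply] at this
  exact this

/-! ### Functoriality -/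

/-- Compatibility of `f : K →+* L` with two sets of data. -/
structure Compat {L : Type*} [CommRing L] (D : AlgData K) (E : AlgData L) (f : K →+* L) :
    Prop where
  s1 : ∀ k, f (D.s1 k) = E.s1 (f k)
  s2 : ∀ k, f (D.s2 k) = E.s2 (f k)
  s3 : ∀ k, f (D.s3 k) = E.s3 (f k)
  sg : ∀ k, f (D.sg k) = E.sg (f k)
  u1 : f D.u1 = E.u1
  u3 : f D.u3 = E.u3
  a1 : f D.a1 = E.a1
  a2 : f D.a2 = E.a2
  a3 : f D.a3 = E.a3

section map

variable {D} {L : Type*} [CommRing L] {E : AlgData L} {f : K →+* L} (h : D.Compat E f)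

include h

lemma compat_v1 : f D.v1 = E.v1 := by
  have h1 : f D.v1 * E.u1 = 1 := by rw [← h.u1, ← map_mul, D.v1u1, map_one]
  calc f D.v1 = f D.v1 * (E.v1 * E.u1) := by rw [E.v1u1, mul_one]
    _ = E.v1 * (f D.v1 * E.u1) := by ring
    _ = _ := by rw [h1, mul_one]

lemma compat_v3 : f D.v3 = E.v3 := by
  have h1 : f D.v3 * E.u3 = 1 := by rw [← h.u3, ← map_mul, D.v3u3, map_one]
  calc f D.v3 = f D.v3 * (E.v3 * E.u3) := by rw [E.v3u3, mul_one]
    _ = E.v3 * (f D.v3 * E.u3) := by ring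
    _ = _ := by rw [h1, mul_one]

lemma map_rel : D.Rel (E.ofK.comp f) E.z1 E.z2 E.z3 where
  h1 k := by rw [RingHom.comp_apply, RingHom.comp_apply, z1_ofK, h.s1]
  h2 k := by rw [RingHom.comp_apply, RingHom.comp_apply, z2_ofK, h.s2]
  h3 k := by rw [RingHom.comp_apply, RingHom.comp_apply, z3_ofK, h.s3]
  h31 := E.z3_z1
  h21 := by rw [RingHom.comp_apply, compat_v1 h, z2_z1, mul_assoc]
  h23 := by rw [RingHom.comp_apply, compat_v3 h, z2_z3, mul_assoc]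
  p1 := by rw [RingHom.comp_apply, z1_cube, h.a1]
  p2 := by rw [RingHom.comp_apply, z2_cube, h.a2]
  p3 := by rw [RingHom.comp_apply, z3_cube, h.a3]

/-- The induced map. -/
@[irreducible] def map : D.Alg →+* E.Alg := lift (map_rel h)

@[simp] lemma map_ofK (k : K) : map h (D.ofK k) = E.ofK (f k) := by
  unfold map
  rw [lift_ofK, RingHom.comp_apply]

@[simp] lemma map_z1 : map h D.z1 = E.z1 := by
  unfold map
  rw [lift_z1]

@[simp] lemma map_z2 : map h D.z2 = E.z2 := by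
  unfold map
  rw [lift_z2]

@[simp] lemma map_z3 : map h D.z3 = E.z3 := by
  unfold map
  rw [lift_z3]

lemma map_ofCoord (c : Fin 3 → Fin 3 → Fin 3 → K) :
    map h (D.ofCoord c) = E.ofCoord (fun i j k => f (c i j k)) := by
  rw [ofCoord_eq', ofCoord_eq', map_sum]
  refine Finset.sum_congr rfl fun i _ => ?_
  rw [map_sum]
  refine Finset.sum_congr rfl fun j _ => ?_
  rw [map_sum]
  refine Finset.sum_congr rfl fun k _ => ?_
  rw [map_mul, map_mul, map_mul, map_pow, map_pow, map_pow, map_ofK, map_z1, map_z2, map_z3]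

theorem coord_map (x : D.Alg) (i j k : Fin 3) :
    coord (map h x) i j k = f (coord x i j k) := by
  rw [← D.ofCoord_coord x, map_ofCoord, coord_ofCoord, ofCoord_coord]

theorem map_injective (hf : Function.Injective f) : Function.Injective (map h) := by
  intro x y hxy
  refine coord_ext fun i j k => hf ?_
  rw [← coord_map h, ← coord_map h, hxy]

theorem map_sigma (x : D.Alg) : map h (D.sigma x) = E.sigma (map h x) := by
  have key : ∀ (w : D.Alg) (w' : E.Alg), map h w = w' → w * D.sigma w = 1 → E.sigma w' * w' = 1 →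
      map h (D.sigma w) = E.sigma (map h w) := by
    intro w w' hw h1 h2
    have h3 : w' * map h (D.sigma w) = 1 := by rw [← hw, ← map_mul, h1, map_one]
    rw [hw]
    exact (left_inv_eq_right_inv h2 h3).symm
  have := hom_ext (D := D) (f := (map h).comp D.sigma) (g := E.sigma.comp (map h))
    (fun k => by
      rw [RingHom.comp_apply, RingHom.comp_apply, sigma_ofK, map_ofK, map_ofK, sigma_ofK, h.sg])
    (by rw [RingHom.comp_apply, RingHom.comp_apply,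
      key _ _ (map_z1 h) D.z1_mul_sigma E.sigma_mul_z1])
    (by rw [RingHom.comp_apply, RingHom.comp_apply,
      key _ _ (map_z3 h) D.z3_mul_sigma E.sigma_mul_z3])
    (by rw [RingHom.comp_apply, RingHom.comp_apply,
      key _ _ (map_z2 h) D.z2_mul_sigma E.sigma_mul_z2]) x
  rw [RingHom.comp_apply, RingHom.comp_apply] at this
  exact this

end map

/-! ### Additivity and left linearity of the coordinates -/

lemma coord_add {D : AlgData K} (x y : D.Alg) (i j k : Fin 3) :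
    coord (x + y) i j k = coord x i j k + coord y i j k := by
  have h : ∀ {R : Type _} [Ring R] {d : CycData R} (x y : Cyc d) (i : Fin 3),
      cf (x + y) i = cf x i + cf y i := by
    intro R _ d x y i
    fin_cases i <;> rfl
  unfold coord
  rw [h, h, h]

lemma coord_ofK_mul {D : AlgData K} (r : K) (x : D.Alg) (i j k : Fin 3) :
    coord (D.ofK r * x) i j k = r * coord x i j k := by
  have h : ∀ {R : Type _} [Ring R] {d : CycData R} (r : R) (x : Cyc d) (i : Fin 3),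
      cf (of d r * x) i = r * cf x i := by
    intro R _ d r x i
    fin_cases i
    · exact of_mul_c0 x r
    · exact of_mul_c1 x r
    · exact of_mul_c2 x r
  unfold coord
  rw [ofK_def, h, h, h]

end AlgData

end Pool.Agent.H.MP_9e990c_al
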